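import Pool.Agent.SGP.Stmts
import Pool.Agent.Helper51_SGE.Nta
import Pool.Agent.Helper51_SGE.Ntb

/-!
# SGP, row CON: the cone over the contour
-/

set_option autoImplicit false

namespace Pool.Agent.SGP.H81

open Pool.Agent.SGE

theorem con_append {V : Type} (U : List V) (z y u v : V) :
    Con ((U ++ [z]) ++ [y]) u v ↔ Con (U ++ [z]) u v ∨ (u = z ∧ v = y) := by
  constructor
  · rintro ⟨P, Q, h⟩
    rcases List.eq_nil_or_concat Q with rfl | ⟨Q', t, rfl⟩
    · right
      have h1 : U ++ [z, y] = P ++ [u, v] := by
        rw [← h]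
        simp
      have h2 := List.append_inj_right' h1 (by simp)
      simp only [List.cons.injEq, and_true] at h2
      exact ⟨h2.1.symm, h2.2.symm⟩
    · left
      have h1 : (U ++ [z]) ++ [y] = (P ++ u :: v :: Q') ++ [t] := by
        rw [h]
        simp
      exact ⟨P, Q', List.append_inj_left' h1 (by simp)⟩
  · rintro (⟨P, Q, h⟩ | ⟨rfl, rfl⟩)
    · refine ⟨P, Q ++ [y], ?_⟩
      rw [h]
      simp
    · exact ⟨U, [], by simp⟩

theorem con_pair {V : Type} (a z u v : V) : Con [a, z] u v ↔ (u = a ∧ v = z) := by
  have h := con_append [] a z u v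
  simp only [List.nil_append, List.singleton_append] at h
  rw [h]
  constructor
  · rintro (⟨P, Q, h1⟩ | h1)
    · have h2 := congrArg List.length h1
      simp at h2
      omega
    · exact h1
  · exact fun h1 => Or.inr h1

theorem cE_step {V : Type} (E : V → V → Prop) (c z y : V) (U : List V) :
    addE (cE E c (U ++ [z])) c y = cE E c ((U ++ [z]) ++ [y]) := by
  funext u w
  unfold addE cE
  rw [List.mem_append (s := U ++ [z]) (t := [y]), List.mem_append (s := U ++ [z]) (t := [y]),
    List.mem_singleton, List.mem_singleton]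
  apply propext
  tauto

theorem cF_step {V : Type} (F : V → V → V → Prop) (c z y : V) (U : List V) :
    addF (cF F c (U ++ [z])) c z y = cF F c ((U ++ [z]) ++ [y]) := by
  funext u v w
  unfold addF cF
  rw [con_append, con_append, con_append]
  apply propext
  tauto

theorem cE_base {V : Type} (E : V → V → Prop) (a c z : V) :
    addE (addE E a c) z c = cE E c ([a] ++ [z]) := by
  funext u w
  unfold addE cE
  simp only [List.singleton_append, List.mem_cons, List.not_mem_nil, or_false]
  apply propext
  tauto

theorem cF_base {V : Type} (F : V → V → V → Prop) (a c z : V) :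
    addF F a z c = cF F c ([a] ++ [z]) := by
  funext u v w
  unfold addF cF
  rw [List.singleton_append, con_pair, con_pair, con_pair]
  apply propext
  tauto

theorem aux {V : Type} [Fintype V] {a b c : V} {E : V → V → Prop} {F : V → V → V → Prop}
    (hc : ∀ x, ¬ E c x) (L : List V) : ∀ (U : List V) (z : V), (U ++ z :: L).Nodup →
      c ∉ U ++ z :: L → NT a b (a :: c :: z :: L) (cE E c (U ++ [z])) (cF F c (U ++ [z])) →
      NT a b [a, c, b] (cE E c (U ++ z :: L)) (cF F c (U ++ z :: L)) := by
  induction L with
  | nil =>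
    intro U z hnd hcz h
    have h1 := h.ls
    simp only [List.getLast?_cons_cons, List.getLast?_singleton, Option.some.injEq] at h1
    rw [← h1]
    exact h1 ▸ h
  | cons y L ih =>
    intro U z hnd hcz h
    have e : U ++ z :: y :: L = (U ++ [z]) ++ y :: L := by simp
    rw [e] at hnd hcz ⊢
    have hy : y ∉ U ++ [z] := by
      intro h1
      exact (List.disjoint_of_nodup_append hnd) h1 (List.mem_cons_self)
    have hyc : y ≠ c := by
      intro h1
      apply hcz
      rw [h1]
      simp
    have hE : ¬ cE E c (U ++ [z]) c y := by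
      rintro (h1 | ⟨-, h1⟩ | ⟨h1, -⟩)
      · exact hc y h1
      · exact hy h1
      · exact hyc h1
    have h2 : NT a b ([a] ++ c :: z :: y :: L) (cE E c (U ++ [z])) (cF F c (U ++ [z])) := h
    have h3 := H51.ntb h2 hE
    rw [cE_step, cF_step] at h3
    exact ih (U ++ [z]) y hnd hcz h3

theorem con : ConStmt := by
  intro V _ a b c Z E F h hc hcz
  have hab := h.ab
  have h1 := h.hd
  have h2 := h.ls
  obtain _ | ⟨a', Z⟩ := Z
  · simp at h1
  simp only [List.head?_cons, Option.some.injEq] at h1
  subst h1
  obtain _ | ⟨z, Z⟩ := Z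
  · simp only [List.getLast?_singleton, Option.some.injEq] at h2
    exact absurd h2 hab
  have h3 : NT a' b ([] ++ a' :: z :: Z) E F := h
  have h4 := H51.nta h3 hc
  rw [cE_base, cF_base] at h4
  exact aux hc Z [a'] z h.nd hcz h4

end Pool.Agent.SGP.H81
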